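import Pool.Agent.MP_510a26_co.Proof

set_option autoImplicit false

namespace Pool.Agent.Results.MP_510a26_co.AllH

open Pool.Agent.MP_510a26_co

/-- The set H of those h for which two orthogonal h-homogeneous latin squares of a common order
exist is the set of all nonnegative integers. -/
theorem result :
    {h : ℕ | ∃ n : ℕ, 1 ≤ n ∧ ∃ L M : Fin n → Fin n → Fin n,
      IsLatin L ∧ IsLatin M ∧ Orthogonal L M ∧ IsHomogeneous h L ∧ IsHomogeneous h M} =
      Set.univ :=
  Set.eq_univ_of_forall main

end Pool.Agent.Results.MP_510a26_co.AllH
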